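import Pool.Agent.Helper9.RS.Unif

/-!
# Rubin's conjecture for abelian extensions of exponent two

`H / F` is a Galois extension of number fields whose group `G` is abelian of exponent two, `S` and `T`
are as in Rubin's conjecture, `r` places of `S` split completely, `t` is the number of the primes of
odd norm in `T`, and `G_v` is the decomposition group of `v`. The element `u` predicted by the
conjecture exists in the rational exterior power, and `2 ^ e u` lies in Rubin's lattice if

1. `[G : ker χ] #D_χ` divides `2 ^ (e + (#S - r - 1) + (t - r - 1))` for all active `χ`, where `D_χ` is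
   generated by the subgroups `G_v ∩ ker χ`, `v ∈ S`, or if
2. the product of the `#G_v`, `v ∈ S`, divides `2 ^ (e + 2 (#S - r - 1) + (t - r - 1))`, or if
3. `4 ∏ N(v) ^ (ord_v 2)`, `v ∈ S` prime ideal, divides `2 ^ (e + s + (t - r - 1))`, where `s` is the
   number of the places `v ∈ S` with `#G_v = 2`, or if
4. `[F : ℚ] + 2 ≤ e + s + (t - r - 1)`

(the difference `t - r - 1` is replaced by `0` if it is negative). In particular `e = [F : ℚ] + 2` is
always allowed, so that the denominator is bounded independently of `H`, `S`, `T`, and Rubin's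
conjecture is true (`e = 0`) if `t ≥ [F : ℚ] + r + 3`, or if no prime ideal of `S` divides `2` and
`#G_v = 2` for two places of `S`, for example if two real places of `F` ramify in `H`.
-/

set_option autoImplicit false

open NumberField IsDedekindDomain Filter Topology

noncomputable section

namespace Pool.Agent.Results.MP_dd9835_nt.UniformDenominator

open Pool.Agent.K3h30.RS

section defs

variable {F H G : Type} [Field F] [NumberField F] [Field H] [NumberField H] [Algebra F H]
  [CommGroup G] [MulSemiringAction G H]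

/-- The number of the places of `F` in `S`. -/
def placesS [Finite G] (D : RubinData F H G) : ℕ := Fintype.card (InfinitePlace F) + D.S.card

/-- The number of the prime ideals in `T` which do not divide `2`. -/
def oddPrimes {F : Type} [Field F] [NumberField F] (T : Finset (HeightOneSpectrum (𝓞 F))) : ℕ :=
  (T.filter fun v => Odd (Ideal.absNorm v.asIdeal)).card

/-- `m u` belongs to Rubin's lattice and `u` is the element of Rubin's conjecture. -/
def RubinUpTo [Finite G] (D : RubinData F H G) (T : Finset (HeightOneSpectrum (𝓞 F))) (m : ℕ) :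
    Prop :=
  ∃ u : Wedge G D.r (D.U T), D.InER u ∧ D.IsStark T u ∧
    ∀ ψ : Fin D.r → GHom G (D.U T), ∃ z : MonoidAlgebra ℤ G, (m : ℚ) • u.value ψ = toQ z

/-- The subgroup `D_χ` of the kernel of `χ` generated by its intersections with the decomposition
groups of the places in `S`. -/
def dec [Finite G] (D : RubinData F H G) (χ : G →* ℂˣ) : Subgroup G :=
  Subgroup.closure {γ : G | χ γ = 1 ∧
    ∃ w : Place H, InS (D.S : Set (HeightOneSpectrum (𝓞 F))) w ∧ Fixes w γ}

/-- The decomposition group of the infinite place `v` of `F`: the subgroup of the commutative group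
`G` generated by the decomposition groups of the places of `H` over `v` (which are equal). -/
def decInf (G H : Type) [Field H] [NumberField H] [Algebra F H] [CommGroup G]
    [MulSemiringAction G H] (v : InfinitePlace F) : Subgroup G :=
  Subgroup.closure {γ : G | ∃ w : InfinitePlace H, w.comap (algebraMap F H) = v ∧
    Fixes (Sum.inl w : Place H) γ}

/-- The decomposition group of the prime ideal `v` of `F`. -/
def decFin (G H : Type) [Field H] [NumberField H] [Algebra F H] [CommGroup G]
    [MulSemiringAction G H] (v : HeightOneSpectrum (𝓞 F)) : Subgroup G :=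
  Subgroup.closure {γ : G | ∃ w : HeightOneSpectrum (𝓞 H), Above {v} w ∧
    Fixes (Sum.inr w : Place H) γ}

/-- The product of the orders of the decomposition groups of the places of `F` in `S`. -/
def localDegrees [Finite G] (D : RubinData F H G) : ℕ :=
  (∏ v : InfinitePlace F, Nat.card (decInf G H v)) * ∏ v ∈ D.S, Nat.card (decFin G H v)

open Classical in
/-- The number of the places in `S` whose decomposition group has order two. -/
def orderTwo [Finite G] (D : RubinData F H G) : ℕ :=
  (Finset.univ.filter fun v : InfinitePlace F => Nat.card (decInf G H v) = 2).card +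
    (D.S.filter fun v => Nat.card (decFin G H v) = 2).card

/-- The product of the `N(v) ^ (ord_v 2)` over the prime ideals in `S`. It divides `2 ^ [F : ℚ]`, and
it is one if no prime ideal of `S` divides `2`. -/
def dyadic [Finite G] (D : RubinData F H G) : ℕ :=
  ∏ v ∈ D.S, Ideal.absNorm v.asIdeal ^ multiplicity v.asIdeal (Ideal.span {(2 : 𝓞 F)})

theorem decAt_inl (v : InfinitePlace F) :
    Pool.Agent.Helper9.RS.decAt G H (Sum.inl v) = decInf G H v := by
  have h : {γ : G | ∃ w : Place H, Pool.Agent.K3h56.E2.Below w (Sum.inl v : Place F) ∧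
      Fixes w γ} = {γ : G | ∃ w : InfinitePlace H, w.comap (algebraMap F H) = v ∧
        Fixes (Sum.inl w : Place H) γ} := by
    ext γ
    constructor
    · rintro ⟨w | w, h5, h6⟩
      · exact ⟨w, h5, h6⟩
      · exact absurd h5 (by simp [Pool.Agent.K3h56.E2.Below])
    · rintro ⟨w, h5, h6⟩
      exact ⟨Sum.inl w, h5, h6⟩
  unfold Pool.Agent.Helper9.RS.decAt decInf
  rw [h]

theorem decAt_inr (v : HeightOneSpectrum (𝓞 F)) :
    Pool.Agent.Helper9.RS.decAt G H (Sum.inr v) = decFin G H v := by
  have h : {γ : G | ∃ w : Place H, Pool.Agent.K3h56.E2.Below w (Sum.inr v : Place F) ∧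
      Fixes w γ} = {γ : G | ∃ w : HeightOneSpectrum (𝓞 H), Above {v} w ∧
        Fixes (Sum.inr w : Place H) γ} := by
    ext γ
    constructor
    · rintro ⟨w | w, h5, h6⟩
      · exact absurd h5 (by simp [Pool.Agent.K3h56.E2.Below])
      · exact ⟨w, h5, h6⟩
    · rintro ⟨w, h5, h6⟩
      exact ⟨Sum.inr w, h5, h6⟩
  unfold Pool.Agent.Helper9.RS.decAt decFin
  rw [h]

theorem prod_decAt [Finite G] (D : RubinData F H G) : ∏ p ∈ Pool.Agent.Helper9.RS.allS D,
    Nat.card (Pool.Agent.Helper9.RS.decAt G H p) = localDegrees D := by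
  rw [Pool.Agent.Helper9.RS.allS, Finset.prod_disjSum, localDegrees]
  simp only [decAt_inl, decAt_inr]

open Classical in
theorem card_orderTwo [Finite G] (D : RubinData F H G) :
    ((Pool.Agent.Helper9.RS.allS D).filter fun p =>
      Nat.card (Pool.Agent.Helper9.RS.decAt G H p) = 2).card = orderTwo D := by
  rw [Finset.card_filter, Pool.Agent.Helper9.RS.allS, Finset.sum_disjSum, orderTwo,
    Finset.card_filter, Finset.card_filter]
  simp only [decAt_inl, decAt_inr]

end defs

/-- **Rubin's conjecture for groups of exponent two, up to a bounded power of two.** -/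
theorem result {F H G : Type} [Field F] [NumberField F] [Field H] [NumberField H] [Algebra F H]
    [CommGroup G] [Finite G] [MulSemiringAction G H] [IsGaloisGroup G F H]
    (D : RubinData F H G) (hG : ∀ g : G, g * g = 1) (T : Finset (HeightOneSpectrum (𝓞 F)))
    (hT : D.Allowed T) :
    (∀ e : ℕ,
      ((∀ χ : G →* ℂˣ, D.Active χ → χ.ker.index * Nat.card (dec D χ) ∣
          2 ^ (e + (placesS D - (D.r + 1)) + (oddPrimes T - (D.r + 1)))) ∨
        localDegrees D ∣
          2 ^ (e + 2 * (placesS D - (D.r + 1)) + (oddPrimes T - (D.r + 1))) ∨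
        4 * dyadic D ∣ 2 ^ (e + orderTwo D + (oddPrimes T - (D.r + 1))) ∨
        Module.finrank ℚ F + 2 ≤ e + orderTwo D + (oddPrimes T - (D.r + 1))) →
      RubinUpTo D T (2 ^ e)) ∧
    (RubinUpTo D T 1 ↔ D.Rubin T) := by
  have h1 : ∀ e : ℕ, (∀ χ : G →* ℂˣ, D.Active χ → χ.ker.index * Nat.card (dec D χ) ∣
      2 ^ (e + (placesS D - (D.r + 1)) + (oddPrimes T - (D.r + 1)))) → RubinUpTo D T (2 ^ e) := by
    intro e he
    refine Pool.Agent.Helper9.RS.asm D T hG (2 ^ e) (by positivity) fun χ =>
      Pool.Agent.Helper9.RS.charRX D T hT hG e χ fun ha => ?_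
    have h := he χ ha
    rw [add_assoc] at h
    exact h
  have h2 : ∀ e : ℕ, localDegrees D ∣
      2 ^ (e + 2 * (placesS D - (D.r + 1)) + (oddPrimes T - (D.r + 1))) →
        RubinUpTo D T (2 ^ e) := by
    intro e he
    refine h1 e fun χ ha => ?_
    have h3 := Pool.Agent.Helper9.RS.local_cond D hG (e + (oddPrimes T - (D.r + 1))) (by
      rw [prod_decAt]
      refine he.trans (dvd_of_eq ?_)
      congr 1
      unfold placesS
      ring) χ ha
    refine h3.trans (dvd_of_eq ?_)
    congr 1
    unfold placesS
    ring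
  have hloc := Pool.Agent.Helper9.RS.local_bound D hG
  rw [prod_decAt, card_orderTwo] at hloc
  have hloc' : 2 ^ orderTwo D * localDegrees D ∣
      2 ^ (2 * (placesS D - (D.r + 1))) * (4 * dyadic D) := by
    refine hloc.trans (dvd_of_eq ?_)
    rw [pow_add, mul_assoc]
    rfl
  have h3 : ∀ e : ℕ, 4 * dyadic D ∣ 2 ^ (e + orderTwo D + (oddPrimes T - (D.r + 1))) →
      RubinUpTo D T (2 ^ e) := by
    intro e he
    refine h2 e ?_
    have h4 : 2 ^ orderTwo D * localDegrees D ∣ 2 ^ orderTwo D *
        2 ^ (e + 2 * (placesS D - (D.r + 1)) + (oddPrimes T - (D.r + 1))) := by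
      refine hloc'.trans ((mul_dvd_mul_left _ he).trans (dvd_of_eq ?_))
      rw [← pow_add, ← pow_add]
      congr 1
      ring
    exact Nat.dvd_of_mul_dvd_mul_left (by positivity) h4
  have hdy : dyadic D ∣ 2 ^ Module.finrank ℚ F := Pool.Agent.Helper9.RS.dyadic_dvd D.S
  have h4 : ∀ e : ℕ, Module.finrank ℚ F + 2 ≤ e + orderTwo D + (oddPrimes T - (D.r + 1)) →
      RubinUpTo D T (2 ^ e) := by
    intro e he
    refine h3 e ((mul_dvd_mul_left 4 hdy).trans ?_)
    rw [show (4 : ℕ) = 2 ^ 2 by norm_num, ← pow_add]
    exact pow_dvd_pow 2 (by omega)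
  have h5 : RubinUpTo D T 1 ↔ D.Rubin T := by
    constructor
    · rintro ⟨u, h6, h7, h8⟩
      refine ⟨u, h6, fun ψ => ?_, h7⟩
      obtain ⟨z, hz⟩ := h8 ψ
      refine ⟨z, ?_⟩
      rwa [Nat.cast_one, one_smul] at hz
    · rintro ⟨u, h6, h7, h8⟩
      refine ⟨u, h6, h8, fun ψ => ?_⟩
      obtain ⟨z, hz⟩ := h7 ψ
      refine ⟨z, ?_⟩
      rwa [Nat.cast_one, one_smul]
  refine ⟨fun e he => ?_, h5⟩
  rcases he with he | he | he | he
  · exact h1 e he
  · exact h2 e he
  · exact h3 e he
  · exact h4 e he

end Pool.Agent.Results.MP_dd9835_nt.UniformDenominator
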